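import Pool.Agent.helper11.VDI.SpecC

/-!
# Row vdi:CEL (MP_07c750_an): cells in the ball of parameters
-/

set_option autoImplicit false

open scoped ContDiff Topology InnerProductSpace ENNReal ComplexConjugate
open MeasureTheory Filter Set

namespace Pool.Agent.VDI

open Pool.Agent.RPQ (PN PJ UN upd IsOp)
open Pool.Agent.VQ (CH AdZ perZ rk)
open Pool.Agent.VN (aN)
open Pool.Agent.VD
open Pool.Agent.VDE (UWLD FDX)

noncomputable section

theorem CEL_fl {a b : ℝ} (ha : 0 ≤ a) (hb : 0 ≤ b) (h : ⌊a⌋₊ = ⌊b⌋₊) : |a - b| ≤ 1 := by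
  have h1 := Nat.floor_le ha
  have h2 := Nat.floor_le hb
  have h3 := Nat.lt_floor_add_one a
  have h4 := Nat.lt_floor_add_one b
  rw [h] at h1 h3
  rw [abs_le]
  constructor <;> linarith

theorem CEL_proof : CEL_stmt := by
  intro m S hS
  have hm2 : (1 : ℝ) ≤ (m : ℝ) + 2 := by
    have : (0 : ℝ) ≤ m := Nat.cast_nonneg m
    linarith
  refine ⟨((2 * S + 1) * ((m : ℝ) + 2)) ^ m, one_le_pow₀ (one_le_mul_of_one_le_of_one_le (by linarith) hm2), ?_⟩
  intro δ hδ hδ1
  have hm0 : (0 : ℝ) ≤ m := Nat.cast_nonneg m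
  set n : ℕ := ⌈((m : ℝ) + 1) / δ⌉₊ with hn
  have hn1 : ((m : ℝ) + 1) / δ ≤ n := Nat.le_ceil _
  have hn2 : (n : ℝ) ≤ ((m : ℝ) + 2) / δ := by
    have h1 : (n : ℝ) < ((m : ℝ) + 1) / δ + 1 := Nat.ceil_lt_add_one (by positivity)
    have h2 : (1 : ℝ) ≤ 1 / δ := by rw [le_div_iff₀ hδ]; linarith
    have h3 : ((m : ℝ) + 2) / δ = ((m : ℝ) + 1) / δ + 1 / δ := by ring
    rw [h3]
    linarith
  have hn3 : (1 : ℝ) ≤ n := by
    refine le_trans ?_ hn1
    rw [le_div_iff₀ hδ]
    linarith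
  have hn0 : (0 : ℝ) < n := by linarith
  set B : ℕ := ⌊2 * S * n⌋₊ with hB
  have hBr : (B : ℝ) ≤ 2 * S * n := Nat.floor_le (by positivity)
  refine ⟨(B + 1) ^ m, fun s => (finFunctionFinEquiv (fun j : Fin m => (⟨min ⌊(s j + S) * n⌋₊ B, by omega⟩ : Fin (B + 1)))).val, ?_, ?_, ?_⟩
  · push_cast
    rw [← mul_pow]
    refine pow_le_pow_left₀ (by positivity) ?_ m
    calc (B : ℝ) + 1 ≤ 2 * S * n + 1 := by linarith
      _ ≤ (2 * S + 1) * n := by nlinarith
      _ ≤ (2 * S + 1) * (((m : ℝ) + 2) / δ) := mul_le_mul_of_nonneg_left hn2 (by linarith)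
      _ = (2 * S + 1) * ((m : ℝ) + 2) * (1 / δ) := by ring
  · intro s _
    exact Fin.isLt _
  · intro s s' hs hs' hc
    have h1 := finFunctionFinEquiv.injective (Fin.ext hc)
    have hj : ∀ j : Fin m, |s j - s' j| ≤ 1 / n := by
      intro j
      have h2 := congrArg Fin.val (congrFun h1 j)
      simp only at h2
      have hb : ∀ u : V m, ‖u‖ ≤ S → 0 ≤ (u j + S) * n ∧ ⌊(u j + S) * n⌋₊ ≤ B := by
        intro u hu
        have h3 : |u j| ≤ S := by
          have := PiLp.norm_apply_le u j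
          rw [Real.norm_eq_abs] at this
          exact this.trans hu
        obtain ⟨h4, h5⟩ := abs_le.1 h3
        refine ⟨mul_nonneg (by linarith) hn0.le, ?_⟩
        refine Nat.floor_le_floor ?_
        exact mul_le_mul_of_nonneg_right (by linarith) hn0.le
      obtain ⟨a1, a2⟩ := hb s hs
      obtain ⟨b1, b2⟩ := hb s' hs'
      rw [min_eq_left a2, min_eq_left b2] at h2
      have h3 := CEL_fl a1 b1 h2
      have h4 : (s j + S) * n - (s' j + S) * n = (s j - s' j) * n := by ring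
      rw [h4, abs_mul, abs_of_pos hn0] at h3
      rw [le_div_iff₀ hn0]
      exact h3
    have h5 : ‖s - s'‖ ^ 2 ≤ δ ^ 2 := by
      rw [EuclideanSpace.norm_sq_eq]
      calc ∑ j, ‖(s - s') j‖ ^ 2 ≤ ∑ _j : Fin m, (1 / (n : ℝ)) ^ 2 := by
            refine Finset.sum_le_sum fun j _ => ?_
            refine pow_le_pow_left₀ (norm_nonneg _) ?_ 2
            rw [Real.norm_eq_abs]
            exact hj j
        _ = m * (1 / (n : ℝ)) ^ 2 := by
            rw [Finset.sum_const, Finset.card_univ, Fintype.card_fin, nsmul_eq_mul]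
        _ ≤ m * (δ / ((m : ℝ) + 1)) ^ 2 := by
            refine mul_le_mul_of_nonneg_left (pow_le_pow_left₀ (by positivity) ?_ 2) hm0
            rw [div_le_div_iff₀ hn0 (by positivity)]
            rw [div_le_iff₀ hδ] at hn1
            linarith
        _ ≤ δ ^ 2 := by
            rw [div_pow, mul_div_assoc', div_le_iff₀ (by positivity)]
            have : (m : ℝ) ≤ ((m : ℝ) + 1) ^ 2 := by nlinarith
            nlinarith [sq_nonneg δ]
    exact (abs_le_of_sq_le_sq' h5 hδ.le).2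

end

end Pool.Agent.VDI
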